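import Pool.Agent.Y39.LinAmp
import Pool.Agent.Y39.LinTwo

set_option autoImplicit false

/-!
The threshold constant for linear sofic groups over an arbitrary field is exactly `1/2`.

`Approximable K (1/4) G` says that `G` is linear sofic over `K`.
-/

open Y39.LinSofic

namespace Pool.Agent.Results.MP_7f7a01_al.Threshold

universe u

/-- Over every field `K`, and for every `ε > 0`: the `ε`-approximable countable groups are exactly
the linear sofic ones (those that are `1/4`-approximable) if and only if `ε ≤ 1/2`. -/
theorem result (K : Type u) [Field K] (ε : ℝ) (hε : 0 < ε) :
    (∀ (G : Type) [Group G] [Countable G], Approximable K ε G ↔ Approximable K (1 / 4) G) ↔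
      ε ≤ 1 / 2 := by
  constructor
  · intro h
    by_contra hcon
    push Not at hcon
    have : Countable E2 := Multiplicative.toAdd.injective.countable
    exact not_approximable (K := K) hcon
      ((h E2).2 (approximable_E2.mono (by norm_num)))
  · intro h G _ _
    constructor
    · intro h2
      exact (approximable_half hε (by linarith) h2).mono (by norm_num)
    · intro h2
      exact (approximable_half (by norm_num) (by norm_num) h2).mono h

end Pool.Agent.Results.MP_7f7a01_al.Threshold
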